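import Pool.Agent.Lib.Ctm0.Rec

/-!
# Parameter-free definability of ranks, of `ω` and of the cumulative hierarchy
-/

namespace Pool.Agent.Lib.Ctm0

open Pool.Agent.Lib.Forcing Pool.Agent.Lib.Ctm ZFSet

variable {K : Set (Set Z)} [MK K]

protected theorem D.isOrdinal {s : Set Z → (ℕ → Z) → Z} (hs : T K s) :
    D K (fun M v => (s M v).IsOrdinal) := by
  refine ((D.isTransitive hs).and (D.ball (R := fun _ y _ => y.IsTransitive) hs
    (D.isTransitive T.v0))).congr fun M _ v _ => ?_
  exact isOrdinal_iff_forall_mem_isTransitive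

protected theorem T.rk {s : Set Z → (ℕ → Z) → Z} (hs : T K s) : T K (fun M v => rk (s M v)) := by
  have h : T K (fun M v => recF (fun x f => ⋃₀ (img (fun y =>
      insert (ap f y) (ap f y)) x)) (s M v)) := by
    refine T.recur (G := fun _ x f _ => ⋃₀ (img (fun y =>
      insert (ap f y) (ap f y)) x)) ?_ hs
    refine T.sUnion (T.img (f := fun _ y v => insert (ap (v 1) y) (ap (v 1) y)) T.v0 ?_)
    exact T.insert (T.ap T.v2 T.v0) (T.ap T.v2 T.v0)
  exact h.congr fun M _ v _ => rk_rec _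

protected theorem T.succ {s : Set Z → (ℕ → Z) → Z} (hs : T K s) :
    T K (fun M v => (insert (s M v) (s M v) : Z)) := T.insert hs hs

theorem mem_om_iff {z : Z} : z ∈ om ↔ z.IsOrdinal ∧ ∀ y ∈ (insert z z : Z), y = ∅ ∨
    ∃ u ∈ y, y = insert u u := by
  constructor
  · intro hz
    refine ⟨isOrdinal_om.mem hz, ?_⟩
    have key : ∀ y ∈ om, y = ∅ ∨ ∃ u ∈ y, y = insert u u :=
      om_induction (Or.inl rfl) fun x _ _ => Or.inr ⟨x, mem_insert _ _, rfl⟩
    intro y hy
    rcases mem_insert_iff.1 hy with rfl | hy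
    · exact key _ hz
    · exact key _ (isOrdinal_om.mem_trans hy hz)
  · rintro ⟨ho, h⟩
    by_contra hz
    have h1 : om ⊆ z := by
      rcases IsOrdinal.mem_or_subset ho isOrdinal_om with h1 | h1
      · exact absurd h1 hz
      · exact h1
    have h2 : om ∈ (insert z z : Z) := by
      rw [mem_insert_iff]
      exact IsOrdinal.eq_or_mem_of_subset isOrdinal_om ho h1
    rcases h om h2 with h3 | ⟨u, hu, h3⟩
    · exact notMem_empty _ (h3 ▸ empty_mem_om)
    · have := succ_mem_om hu
      rw [← h3] at this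
      exact mem_irrefl _ this

protected theorem T.om : T K (fun _ _ => om) := by
  refine T.of_mem (fun M hM _ _ => (MK.tm M hM).om_mem) ?_
  have h : D K (fun _ v => (v 0).IsOrdinal ∧ ∀ y ∈ (insert (v 0) (v 0) : Z), y = ∅ ∨
      ∃ u ∈ y, y = insert u u) := by
    refine (D.isOrdinal T.v0).and (D.ball (R := fun _ y _ => y = ∅ ∨
      ∃ u ∈ y, y = insert u u) T.v0.succ ?_)
    refine (D.eq T.v0 T.empty).or (D.bex (R := fun _ u v => v 0 = insert u u) T.v0 ?_)
    exact D.eq T.v1 (T.insert T.v0 T.v0)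
  exact h.congr fun _ _ _ _ => mem_om_iff

protected theorem T.VM {s : Set Z → (ℕ → Z) → Z} (hs : T K s) :
    T K (fun M v => VM M (s M v)) := by
  refine T.recur (G := fun M x f _ => ⋃₀ (img (fun y => pw M (ap f y)) x)) ?_ hs
  exact T.sUnion (T.img (f := fun M y v => pw M (ap (v 1) y)) T.v0
    (T.pw (T.ap T.v2 T.v0)))

/-- an elementary map of a transitive model preserves the relations definable without
parameters -/
theorem elem_D {W : Set Z} (hW : TM W) {j : Z → Z} (hj : ∀ x ∈ W, j x ∈ W) (hj0 : j ∅ = ∅)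
    (hel : ∀ (φ : Fml) (v : ℕ → Z), In W v → (SatC W φ v ↔ SatC W φ (fun i => j (v i))))
    {R : Set Z → (ℕ → Z) → Prop} (h : D {W} R) {v : ℕ → Z} (hv : In W v) :
    R W v ↔ R W (fun i => j (v i)) := by
  obtain ⟨φ, h⟩ := h
  rw [h W rfl v hv, h W rfl _ (fun i => hj _ (hv i)),
    hel φ _ (hv.mix (fun _ => hW.empty_mem))]
  have : (fun i => j (mix v (fun _ => ∅) i)) = mix (fun i => j (v i)) (fun _ => ∅) := by
    funext i
    unfold mix
    split
    · rfl
    · exact hj0
  rw [this]

end Pool.Agent.Lib.Ctm0
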