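import Pool.Agent.Lib.Ctm0.Df

/-!
# Transitive closure and definability of functions defined by recursion
-/

namespace Pool.Agent.Lib.Ctm0

open Pool.Agent.Lib.Forcing Pool.Agent.Lib.Ctm ZFSet

variable {K : Set (Set Z)} [MK K]

section TT

variable {s t u : Set Z → (ℕ → Z) → Z}

protected theorem T.ap (hs : T K s) (ht : T K t) : T K (fun M v => Ctm.ap (s M v) (t M v)) := by
  refine T.sUnion (T.sep (R := fun M z v => ZFSet.pair (t M v) z ∈ s M v) hs.sUnion.sUnion ?_)
  exact D.mem (T.pair ht.tail T.v0) hs.tail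

protected theorem T.graph {f : Set Z → Z → (ℕ → Z) → Z} (ht : T K t)
    (h : T K (fun M v => f M (v 0) (tl v))) :
    T K (fun M v => Ctm.gr (fun z => f M z v) (t M v)) :=
  T.img (f := fun M z v => ZFSet.pair z (f M z v)) ht (T.pair T.v0 h)

protected theorem D.isTransitive (hs : T K s) : D K (fun M v => (s M v).IsTransitive) :=
  D.ball (R := fun M y v => y ⊆ s M v) hs (D.subset T.v0 hs.tail)

end TT

protected theorem D.tcR : D K (fun M v => TcR M (v 0) (v 1)) := by
  refine (D.isTransitive T.v1).and ((D.subset T.v0 T.v1).and ?_)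
  refine D.all (R := fun M t v => t.IsTransitive → v 0 ⊆ t → v 1 ⊆ t) ?_
  exact (D.isTransitive T.v0).imp ((D.subset T.v1 T.v0).imp (D.subset T.v2 T.v0))

theorem tc_mem {M : Set Z} (hM : M ∈ K) {x : Z} (hx : x ∈ M) : tc x ∈ M := by
  have tm := MK.tm M hM
  induction x using ZFSet.inductionOn with
  | _ x ih =>
    obtain ⟨w, hw, h1⟩ := D.repl (K := K) (R := fun M y z _ => TcR M y z) (v := fun _ => ∅)
      D.tcR hM (fun _ => tm.empty_mem) hx (by
        intro y hy
        have h := ih y hy (tm.trans _ hx _ hy)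
        exact ⟨tc y, (tcR_iff h).2 rfl, fun z hz => (tcR_iff h).1 hz⟩)
    have : tc x = x ∪ (⋃₀ w : Z) := by
      ext z
      rw [mem_tc, mem_union, mem_sUnion]
      constructor
      · rintro ⟨y, hy, rfl | h⟩
        · exact Or.inl hy
        · exact Or.inr ⟨tc y, (h1 _).2
            ⟨y, hy, (tcR_iff (ih y hy (tm.trans _ hx _ hy))).2 rfl⟩, h⟩
      · rintro (h | ⟨u, hu, hz⟩)
        · exact ⟨z, h, Or.inl rfl⟩
        · obtain ⟨y, hy, h2⟩ := (h1 u).1 hu
          rw [tcR_iff (ih y hy (tm.trans _ hx _ hy))] at h2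
          exact ⟨y, hy, Or.inr (h2 ▸ hz)⟩
    rw [this]
    exact tm.union_mem hx (tm.sUnion_mem hw)

protected theorem T.tc {s : Set Z → (ℕ → Z) → Z} (hs : T K s) : T K (fun M v => Ctm.tc (s M v)) := by
  have : T1 K (fun _ x => Ctm.tc x) := by
    refine ⟨fun M hM v hv => tc_mem hM (hv 0), ?_⟩
    have h : D K (fun M v => TcR M (v 1) (v 0)) :=
      D.ren (fun i => if i = 0 then 1 else if i = 1 then 0 else i) D.tcR
    refine h.congr fun M hM v hv => ?_
    rw [← tcR_iff (tc_mem hM (hv.tail 0))]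
    simp [hv 0]
  exact T1.app this hs

/-! ## recursion -/

section Rec

variable {G : Set Z → Z → Z → (ℕ → Z) → Z} (hG : T K (fun M v => G M (v 0) (v 1) (tl (tl v))))

include hG

protected theorem D.recOn : D K (fun M v => RecOn (fun x f => G M x f (tl (tl v))) (v 0) (v 1)) := by
  refine (D.isTransitive T.v0).and ?_
  refine D.ball (R := fun M u v => Ctm.ap (v 1) u =
    G M u (Ctm.gr (Ctm.ap (v 1)) (Ctm.tc u)) (tl (tl v))) T.v0 ?_
  refine D.eq (T.ap T.v2 T.v0) ?_
  have h1 : T K (fun _ v => Ctm.gr (Ctm.ap (v 2)) (Ctm.tc (v 0))) :=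
    T.graph (f := fun _ z v => Ctm.ap (v 2) z) T.v0.tc (T.ap T.v3 T.v0)
  -- substitute both arguments
  have h2 : T K (fun M v => G M (v 0) (v 1) (tl (tl (tl (tl v))))) := by
    refine ⟨fun M hM v hv => hG.mem M hM (cons (v 0) (cons (v 1) (tl (tl (tl (tl v)))))) ?_, ?_⟩
    · exact (hv.tail.tail.tail.tail.cons (hv 1)).cons (hv 0)
    · have := hG.gr.ren (fun i => if i = 0 then 0 else if i = 1 then 1 else if i = 2 then 2
        else i + 2)
      exact this
  refine ⟨?_, ?_⟩
  · intro M hM v hv
    exact hG.mem M hM (cons (v 0) (cons (Ctm.gr (Ctm.ap (v 2)) (Ctm.tc (v 0)))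
      (tl (tl (tl v))))) ((hv.tail.tail.tail.cons (h1.mem M hM v hv)).cons (hv 0))
  · have h3 : D K (fun M v => v 1 = G M (v 2) (v 0) (tl (tl (tl (tl (tl v)))))) := by
      have := hG.gr.ren (fun i => if i = 0 then 1 else if i = 1 then 2 else if i = 2 then 0
        else i + 2)
      exact this
    refine D.subst (t := fun M v => Ctm.gr (Ctm.ap (v 3)) (Ctm.tc (v 1)))
      (R := fun M g v => v 0 = G M (v 1) g (tl (tl (tl (tl v))))) h3 h1.tail

protected theorem D.recR : D K (fun M v => RecR M (fun x f => G M x f (tl (tl v))) (v 0) (v 1)) := by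
  refine D.ex (R := fun M t v => ∃ f ∈ M, RecOn (fun x f => G M x f (tl (tl v))) t f ∧
    v 0 ∈ t ∧ v 1 = Ctm.ap f (v 0)) ?_
  refine D.ex (R := fun M f v => RecOn (fun x f => G M x f (tl (tl (tl v)))) (v 0) f ∧
    v 1 ∈ v 0 ∧ v 2 = Ctm.ap f (v 1)) ?_
  refine D.and ?_ ((D.mem T.v2 T.v1).and (D.eq T.v3 (T.ap T.v0 T.v2)))
  have := (D.recOn hG).ren (fun i => if i = 0 then 1 else if i = 1 then 0 else i + 2)
  exact this

theorem recF_mem {M : Set Z} (hM : M ∈ K) {v : ℕ → Z} (hv : In M v) :
    ∀ x ∈ M, recF (fun x f => G M x f v) x ∈ M ∧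
      gr (recF (fun x f => G M x f v)) (tc x) ∈ M := by
  have tm := MK.tm M hM
  have key : ∀ o : Ordinal, ∀ x, rank x = o → x ∈ M → recF (fun x f => G M x f v) x ∈ M ∧
      gr (recF (fun x f => G M x f v)) (tc x) ∈ M := by
    intro o
    induction o using WellFoundedLT.induction with
    | _ o ih =>
      intro x hxo hx
      have htc := tc_mem hM hx
      have hin : ∀ y ∈ tc x, y ∈ M := fun y hy => tm.trans _ htc _ hy
      have ih' : ∀ y ∈ tc x, recF (fun x f => G M x f v) y ∈ M ∧
          gr (recF (fun x f => G M x f v)) (tc y) ∈ M := fun y hy =>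
        ih (rank y) (hxo ▸ rank_lt_of_mem_tc hy) y rfl (hin y hy)
      have hR : ∀ y ∈ tc x, RecR M (fun x f => G M x f v) y (recF (fun x f => G M x f v) y) := by
        intro y hy
        refine ⟨insert y (tc y), tm.insert_mem (hin y hy) (tc_mem hM (hin y hy)),
          gr (recF (fun x f => G M x f v)) (insert y (tc y)), ?_, recOn_gr (insert_tc_trans y),
          mem_insert _ _, (ap_gr (mem_insert _ _)).symm⟩
        have : gr (recF (fun x f => G M x f v)) (insert y (tc y)) =
            insert (pair y (recF (fun x f => G M x f v) y))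
              (gr (recF (fun x f => G M x f v)) (tc y)) := by
          ext z
          rw [mem_insert_iff, mem_gr, mem_gr]
          constructor
          · rintro ⟨u, hu, rfl⟩
            rcases mem_insert_iff.1 hu with rfl | hu
            · exact Or.inl rfl
            · exact Or.inr ⟨u, hu, rfl⟩
          · rintro (rfl | ⟨u, hu, rfl⟩)
            · exact ⟨y, mem_insert _ _, rfl⟩
            · exact ⟨u, mem_insert_of_mem _ hu, rfl⟩
        rw [this]
        exact tm.insert_mem (tm.pair_mem (hin y hy) (ih' y hy).1) (ih' y hy).2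
      have hD : D K (fun M v => ∃ w ∈ M, RecR M (fun x f => G M x f (tl (tl v))) (v 0) w ∧
          v 1 = ZFSet.pair (v 0) w) := by
        refine D.ex (R := fun M w v => RecR M (fun x f => G M x f (tl (tl v))) (v 0) w ∧
          v 1 = ZFSet.pair (v 0) w) (D.and ?_ (D.eq T.v2 (T.pair T.v1 T.v0)))
        have := (D.recR hG).ren (fun i => if i = 0 then 1 else if i = 1 then 0 else i + 1)
        exact this
      obtain ⟨w, hw, h1⟩ := D.repl (K := K) (R := fun M y z v => ∃ w ∈ M,
        RecR M (fun x f => G M x f v) y w ∧ z = ZFSet.pair y w) hD hM hv htc (by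
          intro y hy
          refine ⟨pair y (recF (fun x f => G M x f v) y),
            ⟨tm.pair_mem (hin y hy) (ih' y hy).1, _, (ih' y hy).1, hR y hy, rfl⟩, ?_⟩
          rintro z ⟨_, w, _, h2, rfl⟩
          rw [h2.eq])
      have h2 : gr (recF (fun x f => G M x f v)) (tc x) = w := by
        ext z
        rw [mem_gr, h1]
        refine exists_congr fun y => and_congr_right fun hy => ?_
        constructor
        · rintro rfl
          exact ⟨tm.pair_mem (hin y hy) (ih' y hy).1, _, (ih' y hy).1, hR y hy, rfl⟩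
        · rintro ⟨_, w, _, h2, rfl⟩
          rw [h2.eq]
      have h3 : gr (recF (fun x f => G M x f v)) (tc x) ∈ M := h2 ▸ hw
      refine ⟨?_, h3⟩
      rw [recF_eq]
      exact hG.mem M hM (cons x (cons _ v)) ((hv.cons h3).cons hx)
  exact fun x => key _ x rfl

theorem recR_iff {M : Set Z} (hM : M ∈ K) {v : ℕ → Z} (hv : In M v) {x w : Z} (hx : x ∈ M) :
    RecR M (fun x f => G M x f v) x w ↔ w = recF (fun x f => G M x f v) x := by
  have tm := MK.tm M hM
  refine ⟨fun h => h.eq, ?_⟩
  rintro rfl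
  have h1 := recF_mem hG hM hv x hx
  refine ⟨insert x (tc x), tm.insert_mem hx (tc_mem hM hx),
    gr (recF (fun x f => G M x f v)) (insert x (tc x)), ?_, recOn_gr (insert_tc_trans x),
    mem_insert _ _, (ap_gr (mem_insert _ _)).symm⟩
  have : gr (recF (fun x f => G M x f v)) (insert x (tc x)) =
      insert (pair x (recF (fun x f => G M x f v) x))
        (gr (recF (fun x f => G M x f v)) (tc x)) := by
    ext z
    rw [mem_insert_iff, mem_gr, mem_gr]
    constructor
    · rintro ⟨u, hu, rfl⟩
      rcases mem_insert_iff.1 hu with rfl | hu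
      · exact Or.inl rfl
      · exact Or.inr ⟨u, hu, rfl⟩
    · rintro (rfl | ⟨u, hu, rfl⟩)
      · exact ⟨x, mem_insert _ _, rfl⟩
      · exact ⟨u, mem_insert_of_mem _ hu, rfl⟩
  rw [this]
  exact tm.insert_mem (tm.pair_mem hx h1.1) h1.2

/-- functions defined by recursion are definable -/
protected theorem T.rec' : T K (fun M v => recF (fun x f => G M x f (tl v)) (v 0)) := by
  refine ⟨fun M hM v hv => (recF_mem hG hM hv.tail _ (hv 0)).1, ?_⟩
  have h : D K (fun M v => RecR M (fun x f => G M x f (tl (tl v))) (v 1) (v 0)) :=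
    D.ren (fun i => if i = 0 then 1 else if i = 1 then 0 else i) (D.recR hG)
  refine h.congr fun M hM v hv => ?_
  exact (recR_iff hG hM hv.tail.tail (hv 1)).symm

end Rec

/-- substitution for the variable `0` in a term -/
protected theorem T.subst {t : Set Z → (ℕ → Z) → Z} {f : Set Z → Z → (ℕ → Z) → Z}
    (h : T K (fun M v => f M (v 0) (tl v))) (ht : T K t) : T K (fun M v => f M (t M v) v) := by
  refine ⟨fun M hM v hv => h.mem M hM (cons (t M v) v) (hv.cons (ht.mem M hM v hv)), ?_⟩
  have h3 : D K (fun M v => v 1 = f M (v 0) (tl (tl v))) :=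
    h.gr.ren (fun i => if i = 0 then 1 else if i = 1 then 0 else i)
  exact D.subst (t := fun M v => t M (tl v)) (R := fun M g v => v 0 = f M g (tl v)) h3 ht.tail

protected theorem T.recur {G : Set Z → Z → Z → (ℕ → Z) → Z} {t : Set Z → (ℕ → Z) → Z}
    (hG : T K (fun M v => G M (v 0) (v 1) (tl (tl v)))) (ht : T K t) :
    T K (fun M v => recF (fun x f => G M x f v) (t M v)) :=
  T.subst (f := fun M x v => recF (fun x f => G M x f v) x) (T.rec' hG) ht

end Pool.Agent.Lib.Ctm0
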